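import Pool.Agent.H123R3.ZT.Const2

/-! `TaskConst`: constant extension of prime degree. -/

set_option autoImplicit false

open Polynomial

namespace Pool.Agent.H123R3.ZT

open Pool.Agent.H387R3.ZT

/-- an irreducible polynomial over `k` stays irreducible over `F` -/
theorem irr_map {k F : Type} [Field k] [Field F] [Algebra k F]
    (hk : ∀ a : F, IsAlgebraic k a → a ∈ (algebraMap k F).range) {f0 : k[X]} (hm : f0.Monic)
    (hi : Irreducible f0) : Irreducible (f0.map (algebraMap k F)) := by
  have hm' : (f0.map (algebraMap k F)).Monic := hm.map _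
  rw [hm'.irreducible_iff_natDegree]
  refine ⟨fun h => ?_, fun g h hg hh e => ?_⟩
  · have := congrArg natDegree h
    rw [natDegree_map, natDegree_one] at this
    exact hi.natDegree_pos.ne' this
  have hlift : ∀ g : F[X], g.Monic → g ∣ f0.map (algebraMap k F) →
      ∃ g0 : k[X], g0.map (algebraMap k F) = g := by
    intro g hg hd
    have h1 := integralClosure.mem_lifts_of_monic_of_dvd_map (R := k) F hm hg hd
    rw [lifts_iff_coeff_lifts] at h1
    have h2 : g ∈ lifts (algebraMap k F) := by
      rw [lifts_iff_coeff_lifts]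
      intro n
      obtain ⟨z, hz⟩ := h1 n
      obtain ⟨a, ha⟩ := hk (g.coeff n) (by
        rw [← hz]
        exact (z.2 : IsIntegral k z.1).isAlgebraic)
      exact ⟨a, ha⟩
    obtain ⟨g0, hg0⟩ := (mem_lifts g).1 h2
    exact ⟨g0, hg0⟩
  obtain ⟨g0, hg0⟩ := hlift g hg ⟨h, e.symm⟩
  obtain ⟨h0, hh0⟩ := hlift h hh ⟨g, by rw [mul_comm]; exact e.symm⟩
  have e0 : g0 * h0 = f0 := by
    apply map_injective _ (algebraMap k F).injective
    rw [Polynomial.map_mul, hg0, hh0, e]
  rcases hi.isUnit_or_isUnit e0.symm with hu | hu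
  · left
    rw [← hg0, natDegree_map]
    exact natDegree_eq_zero_of_isUnit hu
  · right
    rw [← hh0, natDegree_map]
    exact natDegree_eq_zero_of_isUnit hu

/-- approximations of a simple root -/
theorem exists_approx {k F : Type} [Field k] [Field F] [Algebra k F] (P : FF.Place k F)
    (f0 : k[X]) (hirr : Irreducible (f0.map (algebraMap k F))) {r : P.RF}
    (hr : (f0.map (algebraMap k P.RF)).eval r = 0)
    (hd : (f0.derivative.map (algebraMap k P.RF)).eval r ≠ 0) :
    ∃ c : ℕ → F, Approx P (f0.map (algebraMap k F)) c ∧ ∀ n, P.red (c n) = r := by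
  choose x hx hs using newton P f0 hr hd
  have he : ∀ y : P.O, ((f0.map (kO P)).eval y).1 = (f0.map (algebraMap k F)).eval y.1 := by
    intro y
    have h1 := hom_eval₂ f0 (kO P) P.O.subtype y
    rw [eval_map, eval_map]
    exact h1
  refine ⟨fun n => (x n).1, ⟨hirr, fun n => (x n).2, fun n => ?_, fun n m hnm => ?_⟩, fun n => ?_⟩
  · rw [← he]
    exact sm_mono P (by omega) (hs n)
  · apply newton_close P f0 hd (hx m) (hx n)
    · exact sm_mono P (by omega) (hs m)
    · exact sm_mono P (by omega) (hs n)
  · rw [P.red_of_reg (x n).2]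
    exact hx n

/-- two roots in the residue field -/
theorem exists_roots {k κ : Type} [Field k] [Finite k] [Field κ] [Algebra k κ] [Finite κ]
    {f0 : k[X]} (hi : Irreducible f0) {l : ℕ} (hl : 2 ≤ l)
    (hdeg : f0.natDegree = l) (hdvd : l ∣ Module.finrank k κ) :
    ∃ r s : κ, r ≠ s ∧ (f0.map (algebraMap k κ)).eval r = 0 ∧ (f0.map (algebraMap k κ)).eval s = 0 ∧
      (f0.derivative.map (algebraMap k κ)).eval r ≠ 0 ∧
      (f0.derivative.map (algebraMap k κ)).eval s ≠ 0 := by
  have : Fact (Irreducible f0) := ⟨hi⟩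
  have h1 : Module.finrank k (AdjoinRoot f0) = l := by
    rw [← hdeg]
    exact finrank_quotient_span_eq_natDegree
  have h2 := FiniteField.natCard_algHom_of_finrank_dvd (F := k) (K := AdjoinRoot f0) (L := κ)
    (by rw [h1]; exact hdvd)
  rw [h1] at h2
  have : Nontrivial (AdjoinRoot f0 →ₐ[k] κ) := by
    have : 1 < Nat.card (AdjoinRoot f0 →ₐ[k] κ) := by omega
    have : Finite (AdjoinRoot f0 →ₐ[k] κ) := Nat.finite_of_card_ne_zero (by omega)
    exact Finite.one_lt_card_iff_nontrivial.1 (by omega)
  obtain ⟨φ, χ, hne⟩ := exists_pair_ne (AdjoinRoot f0 →ₐ[k] κ)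
  have hsep : f0.Separable := PerfectField.separable_of_irreducible hi
  have hroot : ∀ φ : AdjoinRoot f0 →ₐ[k] κ,
      (f0.map (algebraMap k κ)).eval (φ (AdjoinRoot.root f0)) = 0 := by
    intro φ
    rw [eval_map_algebraMap, aeval_algHom_apply, AdjoinRoot.aeval_eq, AdjoinRoot.mk_self, map_zero]
  have hder : ∀ r : κ, (f0.map (algebraMap k κ)).eval r = 0 →
      (f0.derivative.map (algebraMap k κ)).eval r ≠ 0 := by
    intro r hr
    rw [eval_map_algebraMap] at hr ⊢
    exact hsep.aeval_derivative_ne_zero hr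
  refine ⟨φ (AdjoinRoot.root f0), χ (AdjoinRoot.root f0), fun h => hne ?_, hroot φ, hroot χ,
    hder _ (hroot φ), hder _ (hroot χ)⟩
  exact AdjoinRoot.algHom_ext h

theorem exists_poly (k : Type) [Field k] [Finite k] (l : ℕ) (hl : 2 ≤ l) :
    ∃ f0 : k[X], f0.Monic ∧ Irreducible f0 ∧ f0.natDegree = l := by
  obtain ⟨p, hp⟩ := CharP.exists k
  have : Fact p.Prime := ⟨CharP.char_is_prime k p⟩
  have : NeZero l := ⟨by omega⟩
  letI := ZMod.algebra k p
  have h1 := FiniteField.finrank_extension k p l
  have : Module.Finite k (FiniteField.Extension k p l) :=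
    Module.finite_of_finrank_pos (by omega)
  have : Finite (FiniteField.Extension k p l) := Module.finite_of_finite k
  obtain ⟨α, hα⟩ := Field.exists_primitive_element_of_finite_bot k (FiniteField.Extension k p l)
  have hint : IsIntegral k α := Algebra.IsIntegral.isIntegral α
  refine ⟨minpoly k α, minpoly.monic hint, minpoly.irreducible hint, ?_⟩
  calc (minpoly k α).natDegree = Module.finrank k (IntermediateField.adjoin k {α}) :=
        (IntermediateField.adjoin.finrank hint).symm
    _ = Module.finrank k (⊤ : IntermediateField k (FiniteField.Extension k p l)) := by rw [hα]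
    _ = Module.finrank k (FiniteField.Extension k p l) := IntermediateField.finrank_top'
    _ = l := h1

theorem taskConst : TaskConst := by
  intro k F _ _ _ _ hFF hk l hl hdvd
  obtain ⟨f0, hm, hi, hdeg⟩ := exists_poly k l hl.two_le
  have hirr := irr_map hk hm hi
  have : Fact (Irreducible (f0.map (algebraMap k F))) := ⟨hirr⟩
  have hfin : FiniteDimensional F (AdjoinRoot (f0.map (algebraMap k F))) :=
    (hm.map (algebraMap k F)).finite_adjoinRoot
  have hFF' : FF.IsFF k (AdjoinRoot (f0.map (algebraMap k F))) := by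
    have := hFF.ess
    refine ⟨Algebra.EssFiniteType.comp k F _, ?_⟩
    have h1 := _root_.trdeg_add_eq (R := k) (S := F) (A := AdjoinRoot (f0.map (algebraMap k F)))
    rw [hFF.trdeg, _root_.trdeg_eq_zero (R := F) (A := AdjoinRoot (f0.map (algebraMap k F))),
      add_zero] at h1
    exact h1.symm
  have key : ∀ v : FF.Place k F, ∃ (r s : v.RF) (c d : ℕ → F)
      (A : Approx v (f0.map (algebraMap k F)) c) (B : Approx v (f0.map (algebraMap k F)) d),
      r ≠ s ∧ (∀ n, v.red (c n) = r) ∧ (∀ n, v.red (d n) = s) := by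
    intro v
    have : FiniteDimensional k v.RF := inferInstance
    have : Finite v.RF := Module.finite_of_finite k
    obtain ⟨r, s, hne, h1, h2, h3, h4⟩ := exists_roots (κ := v.RF) hi hl.two_le hdeg (hdvd v)
    obtain ⟨c, A, hc⟩ := exists_approx v f0 hirr h1 h3
    obtain ⟨d, B, hd⟩ := exists_approx v f0 hirr h2 h4
    exact ⟨r, s, c, d, A, B, hne, hc, hd⟩
  choose r s c d A B hne hc hd using key
  have hord : ∀ v w : FF.Place k F, (∀ a : F, v.ord a = w.ord a) → v = w := by
    intro v w h
    ext a
    exact h a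
  refine ⟨AdjoinRoot (f0.map (algebraMap k F)), inferInstance, inferInstance, hFF',
    fun v => wpl (A v), fun v => wpl (B v), ?_, ?_, ?_, fun v => wpl_deg (A v),
    fun v => wpl_deg (B v)⟩
  · intro v w h
    apply hord
    intro a
    have h' : wpl (A v) = wpl (A w) := h
    rw [← wpl_alg (A v), ← wpl_alg (A w), h']
  · intro v w h
    apply hord
    intro a
    have h' : wpl (B v) = wpl (B w) := h
    rw [← wpl_alg (B v), ← wpl_alg (B w), h']
  · intro v w h
    have h' : wpl (A v) = wpl (B w) := h
    clear h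
    have hvw : v = w := by
      apply hord
      intro a
      rw [← wpl_alg (A v), ← wpl_alg (B w), h']
    subst hvw
    have hs : ∀ (e : ℕ → F), (∀ n, v.Reg (e n)) → ∀ n, (∀ m, v.red (e m) = v.red (e n)) →
        ∀ m, Sm v 1 (e m - e n) := by
      intro e he n hen m
      have hr : v.Reg (e m - e n) := by
        rw [sub_eq_add_neg]
        exact v.reg_add (he m) (v.reg_neg (he n))
      have h1 : v.red (e m - e n) = 0 := by
        rw [v.red_sub (he m) (he n), hen m, sub_self]
      rw [v.red_eq_zero_iff hr] at h1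
      rcases h1 with h1 | h1
      · exact Or.inl h1
      · exact Or.inr (by omega)
    have a1 := wpl_root (A v) (x := c v 0) (hs (c v) (A v).reg 0 (fun m => by rw [hc, hc]))
    have a2 := wpl_root (B v) (x := d v 0) (hs (d v) (B v).reg 0 (fun m => by rw [hd, hd]))
    rw [← h'] at a2
    have a3 := sm_sub (wpl (A v)) a2 a1
    have a4 : AdjoinRoot.root (f0.map (algebraMap k F)) -
        algebraMap F (AdjoinRoot (f0.map (algebraMap k F))) (d v 0) -
        (AdjoinRoot.root (f0.map (algebraMap k F)) -
        algebraMap F (AdjoinRoot (f0.map (algebraMap k F))) (c v 0)) =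
        algebraMap F (AdjoinRoot (f0.map (algebraMap k F))) (c v 0 - d v 0) := by
      rw [map_sub]; ring
    rw [a4] at a3
    have a5 : Sm v 1 (c v 0 - d v 0) := by
      rcases a3 with a3 | a3
      · left
        exact (map_eq_zero _).1 a3
      · right
        rwa [wpl_alg] at a3
    apply hne v
    rw [← hc v 0, ← hd v 0, ← sub_eq_zero, ← v.red_sub ((A v).reg 0) ((B v).reg 0)]
    have hr : v.Reg (c v 0 - d v 0) := by
      rw [sub_eq_add_neg]
      exact v.reg_add ((A v).reg 0) (v.reg_neg ((B v).reg 0))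
    rw [v.red_eq_zero_iff hr]
    rcases a5 with a5 | a5
    · exact Or.inl a5
    · exact Or.inr (by omega)

end Pool.Agent.H123R3.ZT
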